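import Pool.Agent.Helper89.SP.Defs
import Pool.Agent.Helper55.SP.PsiPhi
import Pool.Agent.Helper95.SP.Far
import Pool.Agent.Helper76.Slab.AAH
import Pool.Agent.Helper96.Slab.Perm

/-!
Project SP (MP_66ebcc_gt): the second difference (helper5).
-/

set_option autoImplicit false

open MeasureTheory Set Real Slab Slab.AAHaux

namespace Pool.Agent.Helper89.SP

theorem sd_max_sq (y : ℝ) : max y 0 ^ 2 = y ^ 2 / 2 + hh y := by
  unfold hh
  rcases le_total 0 y with h | h
  · rw [max_eq_left h, abs_of_nonneg h]; ring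
  · rw [max_eq_right h, abs_of_nonpos h]; ring

theorem sd_hasDerivAt_sq (y : ℝ) : HasDerivAt (fun y : ℝ => max y 0 ^ 2) (2 * max y 0) y := by
  have h1 : HasDerivAt (fun y : ℝ => y ^ 2 / 2 + hh y) (2 * y / 2 + |y|) y := by
    have h2 : HasDerivAt (fun y : ℝ => y ^ 2) (2 * y) y := by
      simpa using hasDerivAt_pow 2 y
    exact (h2.div_const 2).add (hasDerivAt_hh y)
  have h3 : (fun y : ℝ => max y 0 ^ 2) = fun y : ℝ => y ^ 2 / 2 + hh y := funext sd_max_sq
  rw [h3]
  convert h1 using 1
  rcases le_total 0 y with h | h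
  · rw [max_eq_left h, abs_of_nonneg h]; ring
  · rw [max_eq_right h, abs_of_nonpos h]; ring

theorem sd_int {q : ℝ} (hq : 0 < q) (c : ℝ) :
    ∫ u in (-1 : ℝ)..1, max (c + q * u) 0 = (max (c + q) 0 ^ 2 - max (c - q) 0 ^ 2) / (2 * q) := by
  have h1 : ∀ u ∈ uIcc (-1 : ℝ) 1,
      HasDerivAt (fun u : ℝ => max (c + q * u) 0 ^ 2 / (2 * q)) (max (c + q * u) 0) u := by
    intro u _
    have h2 : HasDerivAt (fun u : ℝ => c + q * u) q u := by
      simpa using ((hasDerivAt_id u).const_mul q).const_add c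
    have h3 := ((sd_hasDerivAt_sq (c + q * u)).comp u h2).div_const (2 * q)
    have h4 : 2 * max (c + q * u) 0 * q / (2 * q) = max (c + q * u) 0 := by
      field_simp
    rw [h4] at h3
    exact h3
  rw [intervalIntegral.integral_eq_sub_of_hasDerivAt h1
    (Continuous.intervalIntegrable (by fun_prop) _ _)]
  rw [mul_one, mul_neg, mul_one, ← sub_eq_add_neg]
  ring

theorem sd_AH {r : ℝ} (hr : 0 < r) (s : ℝ) :
    A r H s = (max (r - s) 0 - max (-r - s) 0) / r := by
  rw [A_H_pos hr]
  have h1 : ∀ x : ℝ, max x 0 = (x + |x|) / 2 := by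
    intro x
    rcases le_total 0 x with h | h
    · rw [max_eq_left h, abs_of_nonneg h]; ring
    · rw [max_eq_right h, abs_of_nonpos h]; ring
  rw [h1, h1, show |r - s| = |s - r| from abs_sub_comm _ _,
    show |-r - s| = |s + r| by rw [show -r - s = -(s + r) by ring, abs_neg]]
  field_simp
  ring

theorem sd_AAH {q r : ℝ} (hq : 0 < q) (hr : 0 < r) (s : ℝ) :
    A q (A r H) s = 1 / (2 * (q * r)) * (max (q + r - s) 0 ^ 2 - max (q - r - s) 0 ^ 2
      - (max (r - q - s) 0 ^ 2 - max (-q - r - s) 0 ^ 2)) := by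
  have h1 : A q (A r H) s = ∫ u in (-1 : ℝ)..1,
      (1 / r * max ((r - s) + q * u) 0 - 1 / r * max ((-r - s) + q * u) 0) := by
    show ∫ u in (-1 : ℝ)..1, A r H (s - q * u) = _
    refine intervalIntegral.integral_congr fun u _ => ?_
    show A r H (s - q * u) = _
    rw [sd_AH hr, show r - (s - q * u) = (r - s) + q * u by ring,
      show -r - (s - q * u) = (-r - s) + q * u by ring]
    ring
  rw [h1, intervalIntegral.integral_sub (Continuous.intervalIntegrable (by fun_prop) _ _)
    (Continuous.intervalIntegrable (by fun_prop) _ _), intervalIntegral.integral_const_mul,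
    intervalIntegral.integral_const_mul, sd_int hq, sd_int hq,
    show r - s + q = q + r - s by ring, show r - s - q = r - q - s by ring,
    show -r - s + q = q - r - s by ring, show -r - s - q = -q - r - s by ring]
  field_simp
  ring

theorem sd_AL (l : List ℝ) (m s : ℝ) :
    AL l (fun x => max (m - x) 0 ^ 2) s = 2 ^ l.length * Psi l (m - s) := by
  have h1 := Pool.Agent.Helper95.SP.AL_translate l (fun x => max (-x) 0 ^ 2) (-m) s
  have h2 : (fun x : ℝ => max (-(x + -m)) 0 ^ 2) = fun x => max (m - x) 0 ^ 2 := by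
    funext x
    rw [show -(x + -m) = m - x by ring]
  rw [h2] at h1
  rw [h1]
  unfold Psi
  rw [show s + -m = -(m - s) by ring]
  field_simp

theorem second_difference (l : List ℝ) {q r : ℝ} (hq : 0 < q) (hr : 0 < r) (s : ℝ) :
    8 * (q * r) * P (q :: r :: l) s =
      Psi l (q + r - s) - Psi l (q - r - s) - Psi l (r - q - s) + Psi l (-q - r - s) := by
  have hperm : (q :: r :: l).Perm (l ++ [q, r]) := by
    have h := List.perm_append_comm (l₁ := [q, r]) (l₂ := l)
    simpa using h
  have h1 : AL (q :: r :: l) H s = AL l (A q (A r H)) s := by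
    rw [AL_perm hperm, AL_append]
    rfl
  have h2 : A q (A r H) = fun s => 1 / (2 * (q * r)) *
      ((max (q + r - s) 0 ^ 2 - max (q - r - s) 0 ^ 2)
      - (max (r - q - s) 0 ^ 2 - max (-q - r - s) 0 ^ 2)) := funext fun s => sd_AAH hq hr s
  have h3 : AL l (A q (A r H)) s = 1 / (2 * (q * r)) * (2 ^ l.length * (
      Psi l (q + r - s) - Psi l (q - r - s) - (Psi l (r - q - s) - Psi l (-q - r - s)))) := by
    rw [h2, Pool.Agent.Helper95.SP.AL_const_mul]
    rw [AL_sub (φ := fun s => max (q + r - s) 0 ^ 2 - max (q - r - s) 0 ^ 2)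
      (ψ := fun s => max (r - q - s) 0 ^ 2 - max (-q - r - s) 0 ^ 2) (by fun_prop) (by fun_prop)]
    rw [AL_sub (φ := fun s => max (q + r - s) 0 ^ 2) (ψ := fun s => max (q - r - s) 0 ^ 2)
      (by fun_prop) (by fun_prop)]
    rw [AL_sub (φ := fun s => max (r - q - s) 0 ^ 2) (ψ := fun s => max (-q - r - s) 0 ^ 2)
      (by fun_prop) (by fun_prop)]
    dsimp only
    rw [sd_AL, sd_AL, sd_AL, sd_AL]
    ring
  unfold P
  rw [h1, h3, List.length_cons, List.length_cons, pow_succ, pow_succ]
  field_simp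
  ring

end Pool.Agent.Helper89.SP
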